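import Pool.Agent.Helper43.RP.Goals
import Pool.Agent.Helper87.FE.UB

/-!
# Project RP: packet UB, upper bound at a point close to `(1,...,1)`
-/

set_option autoImplicit false

namespace Pool.Agent.Helper14.RP.UB

open Pool.Agent.Helper50.FE Pool.Agent.Helper87.FE

/-- **RP-UB.** -/
theorem t : Pool.Agent.Helper43.RP.UB2 := by
  intro m r A β T c e y hadm hβ hy
  obtain ⟨-, -, hcb, hcv⟩ := hadm
  set R : ℕ := ∑ i, r i with hR
  set Q : ℝ := Real.exp (-(T - ∑ i, (e i : ℝ) * β i)) with hQ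
  have hQ0 : 0 < Q := Real.exp_pos _
  rw [val_eq]
  push_cast
  have hterm : ∀ f ∈ box r,
      |(∏ i, ((((e i + f i).choose (e i) : ℕ) : ℝ) * (((y i : ℚ) : ℝ) - 1) ^ (f i))) *
        ((TT r c (fun i => e i + f i) : ℤ) : ℝ)| ≤ 32 ^ R * Q := by
    intro f hf
    by_cases h0 : TT r c (fun i => e i + f i) = 0
    · rw [h0, Int.cast_zero, mul_zero, abs_zero]
      positivity
    have h1 : ∀ i, e i + f i ≤ r i := by
      intro i
      by_contra hcon
      exact h0 (TT_big r c _ (i := i) (not_le.1 hcon))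
    have h2 : T ≤ ∑ i, ((e i + f i : ℕ) : ℝ) * β i := by
      by_contra hcon
      exact h0 (hcv _ (not_le.1 hcon))
    have h3 : ∑ i, ((e i + f i : ℕ) : ℝ) * β i =
        ∑ i, (e i : ℝ) * β i + ∑ i, (f i : ℝ) * β i := by
      rw [← Finset.sum_add_distrib]
      refine Finset.sum_congr rfl fun i _ => ?_
      push_cast
      ring
    have h4 : T - ∑ i, (e i : ℝ) * β i ≤ ∑ i, (f i : ℝ) * β i := by
      rw [h3] at h2
      linarith
    rw [abs_mul, Finset.abs_prod]
    have h5 : |((TT r c (fun i => e i + f i) : ℤ) : ℝ)| ≤ 16 ^ R := by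
      have := TT_le r c (fun i => e i + f i) hcb
      exact_mod_cast this
    have h6 : ∏ i, |(((e i + f i).choose (e i) : ℕ) : ℝ) * (((y i : ℚ) : ℝ) - 1) ^ (f i)| ≤
        2 ^ R * Q := by
      have h7 : ∀ i, |(((e i + f i).choose (e i) : ℕ) : ℝ) * (((y i : ℚ) : ℝ) - 1) ^ (f i)| ≤
          2 ^ (r i) * Real.exp (-((f i : ℝ) * β i)) := by
        intro i
        rw [abs_mul, abs_pow, Nat.abs_cast]
        refine mul_le_mul ?_ ?_ (by positivity) (by positivity)
        · have h8 : (e i + f i).choose (e i) ≤ 2 ^ (r i) :=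
            (Nat.choose_le_two_pow _ _).trans (Nat.pow_le_pow_right (by norm_num) (h1 i))
          exact_mod_cast h8
        · calc |((y i : ℚ) : ℝ) - 1| ^ (f i) ≤ Real.exp (-(β i)) ^ (f i) :=
                pow_le_pow_left₀ (abs_nonneg _) (hy i) _
            _ = Real.exp (-((f i : ℝ) * β i)) := by
                rw [← Real.exp_nat_mul]
                congr 1
                ring
      calc ∏ i, |(((e i + f i).choose (e i) : ℕ) : ℝ) * (((y i : ℚ) : ℝ) - 1) ^ (f i)|
          ≤ ∏ i, (2 ^ (r i) * Real.exp (-((f i : ℝ) * β i))) :=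
            Finset.prod_le_prod (fun i _ => abs_nonneg _) fun i _ => h7 i
        _ = 2 ^ R * Real.exp (-(∑ i, (f i : ℝ) * β i)) := by
            rw [Finset.prod_mul_distrib, Finset.prod_pow_eq_pow_sum, ← Real.exp_sum,
              Finset.sum_neg_distrib]
        _ ≤ 2 ^ R * Q := by
            refine mul_le_mul_of_nonneg_left ?_ (by positivity)
            apply Real.exp_le_exp.2
            linarith
    calc (∏ i, |(((e i + f i).choose (e i) : ℕ) : ℝ) * (((y i : ℚ) : ℝ) - 1) ^ (f i)|) *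
          |((TT r c (fun i => e i + f i) : ℤ) : ℝ)| ≤ (2 ^ R * Q) * 16 ^ R :=
          mul_le_mul h6 h5 (abs_nonneg _) (by positivity)
      _ = 32 ^ R * Q := by
          rw [mul_right_comm, ← mul_pow]
          norm_num
  calc |∑ f ∈ box r, (∏ i, ((((e i + f i).choose (e i) : ℕ) : ℝ) *
        (((y i : ℚ) : ℝ) - 1) ^ (f i))) * ((TT r c (fun i => e i + f i) : ℤ) : ℝ)|
      ≤ ∑ f ∈ box r, |(∏ i, ((((e i + f i).choose (e i) : ℕ) : ℝ) *
        (((y i : ℚ) : ℝ) - 1) ^ (f i))) * ((TT r c (fun i => e i + f i) : ℤ) : ℝ)| :=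
        Finset.abs_sum_le_sum_abs _ _
    _ ≤ ∑ _f ∈ box r, 32 ^ R * Q := Finset.sum_le_sum hterm
    _ = ((box r).card : ℝ) * (32 ^ R * Q) := by rw [Finset.sum_const, nsmul_eq_mul]
    _ ≤ 2 ^ R * (32 ^ R * Q) := by
        refine mul_le_mul_of_nonneg_right ?_ (by positivity)
        exact_mod_cast card_box r
    _ = 64 ^ R * Q := by
        rw [← mul_assoc, ← mul_pow]
        norm_num

end Pool.Agent.Helper14.RP.UB
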